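import Pool.Agent.Helper86.TH.Stmts

/-! # Row PF1 of the project TH -/

set_option linter.unusedSectionVars false

namespace TH80

open MvPolynomial Finset TH

noncomputable section

variable {K : Type*} [Field K] [CharZero K]

theorem zc_inj {q t : K} (h : Gn q t) (μ : Par) {i j : ℕ} (he : zc q t μ i = zc q t μ j) :
    i = j := by
  have h1 : q ^ ((μ.1 i : ℤ) - (μ.1 j : ℤ)) * t ^ ((i : ℤ) - (j : ℤ)) = 1 := by
    rw [zpow_sub₀ h.q0, zpow_sub₀ h.t0, zpow_natCast, zpow_natCast, zpow_natCast, zpow_natCast,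
      div_mul_div_comm, div_eq_one_iff_eq (mul_ne_zero (pow_ne_zero _ h.q0) (pow_ne_zero _ h.t0)),
      mul_comm, mul_comm (q ^ μ.1 j)]
    exact he
  have h2 := (h.ind _ _ h1).2
  omega

/-- the geometric points `y_i = 1 / (t z_i)` -/
def yy (q t : K) (μ : Par) (i : ℕ) : K := t⁻¹ * (zc q t μ i)⁻¹

theorem zc_inv (q t : K) (μ : Par) (i : ℕ) : zc q⁻¹ t⁻¹ μ i = (zc q t μ i)⁻¹ := by
  rw [zc, zc, mul_inv, inv_pow, inv_pow]

theorem yy_ne {q t : K} (h : Gn q t) (μ : Par) (i : ℕ) : yy q t μ i ≠ 0 :=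
  mul_ne_zero (inv_ne_zero h.t0) (inv_ne_zero (h.zc_ne μ i))

theorem yy_inj {q t : K} (h : Gn q t) (μ : Par) {i j : ℕ} (he : yy q t μ i = yy q t μ j) :
    i = j := by
  have h1 := mul_left_cancel₀ (inv_ne_zero h.t0) he
  exact zc_inj h μ (inv_injective h1)

theorem pt_eq {q t : K} (h : Gn q t) (μ : Par) (N : ℕ) (hN : card μ ≤ N) (k : ℕ) :
    -(pt q t μ k) = -(((t ^ N)⁻¹) ^ (k + 1))
      + (1 - t ^ (k + 1)) * ∑ i ∈ range N, yy q t μ i ^ (k + 1) := by
  rw [pt, one_sub_Mj_Ps q⁻¹ t⁻¹ μ k N (fun i hi => μ.zero_of_card_le (by omega)), neg_add]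
  congr 1
  · rw [inv_pow]
  · rw [Finset.mul_sum, Finset.mul_sum, ← Finset.sum_neg_distrib]
    refine Finset.sum_congr rfl fun i _ => ?_
    have ht := h.t0
    rw [zc_inv, yy, mul_pow, ← mul_assoc, inv_pow]
    have h3 : t ^ (k + 1) ≠ 0 := pow_ne_zero _ ht
    have h4 : -(1 - (t ^ (k + 1))⁻¹) = (1 - t ^ (k + 1)) * (t ^ (k + 1))⁻¹ := by
      rw [sub_mul, mul_inv_cancel₀ h3]; ring
    rw [← h4]
    ring

/-- the first difference of a sequence of complete functions -/
theorem hc_sub_geom (a : K) (c : ℕ → K) (n : ℕ) :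
    hc (fun j => -(a ^ (j + 1)) + c j) n = hc c n - (if n = 0 then 0 else a * hc c (n - 1)) := by
  rw [hc_add_range]
  cases n with
  | zero => simp
  | succ n =>
    rw [if_neg (by omega), Finset.sum_range_succ', Finset.sum_range_succ']
    have h4 : ∑ k ∈ range n, hc (fun j => -(a ^ (j + 1))) (k + 1 + 1)
        * hc c (n + 1 - (k + 1 + 1)) = 0 := by
      refine Finset.sum_eq_zero fun k _ => ?_
      rw [hc_neg_geom_two, zero_mul]
    rw [h4]
    simp only [zero_add, hc_neg_geom_one, hc_zero, Nat.sub_zero, Nat.add_sub_cancel]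
    ring

theorem rho_eq {q t : K} (h : Gn q t) (μ : Par) (N i : ℕ) :
    rho q t N μ i = AA t N (yy q t μ) i * (1 - (t ^ N)⁻¹ * (yy q t μ i)⁻¹) := by
  have ht := h.t0
  have h1 : (t ^ N)⁻¹ * (yy q t μ i)⁻¹ = t / t ^ N * zc q t μ i := by
    rw [yy, mul_inv, inv_inv, inv_inv]
    ring
  have h2 : ∀ l ∈ (range N).erase i, (1 - t * zc q t μ i / zc q t μ l)
      / (1 - zc q t μ i / zc q t μ l)
      = (yy q t μ i - t * yy q t μ l) / (yy q t μ i - yy q t μ l) := by
    intro l hl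
    have hzi := h.zc_ne μ i
    have hzl := h.zc_ne μ l
    have h3 : yy q t μ i - t * yy q t μ l
        = (1 - t * zc q t μ i / zc q t μ l) * (t⁻¹ * (zc q t μ i)⁻¹) := by
      rw [yy, yy]; field_simp
    have h4 : yy q t μ i - yy q t μ l
        = (1 - zc q t μ i / zc q t μ l) * (t⁻¹ * (zc q t μ i)⁻¹) := by
      rw [yy, yy]; field_simp
    rw [h3, h4, mul_div_mul_right]
    exact yy_ne h μ i
  rw [rho, AA, h1, Finset.prod_congr rfl h2]
  ring

theorem AA_inv {t : K} (ht : t ≠ 0) (N i : ℕ) (hi : i < N) (y : ℕ → K)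
    (hy : ∀ i, i < N → y i ≠ 0) :
    AA t⁻¹ N (fun i => (y i)⁻¹) i = -((t ^ N)⁻¹ * AA t N y i) := by
  have h1 : ∀ l ∈ (range N).erase i, ((y i)⁻¹ - t⁻¹ * (y l)⁻¹) / ((y i)⁻¹ - (y l)⁻¹)
      = t⁻¹ * ((y i - t * y l) / (y i - y l)) := by
    intro l hl
    have hyi := hy i hi
    have hyl := hy l (mem_range.1 (Finset.mem_of_mem_erase hl))
    have h3 : (y i)⁻¹ - t⁻¹ * (y l)⁻¹ = (t⁻¹ * (y i - t * y l)) * (-((y i)⁻¹ * (y l)⁻¹)) := by
      field_simp; ring
    have h4 : (y i)⁻¹ - (y l)⁻¹ = (y i - y l) * (-((y i)⁻¹ * (y l)⁻¹)) := by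
      field_simp; ring
    rw [h3, h4, mul_div_mul_right _ _ (by
      exact neg_ne_zero.2 (mul_ne_zero (inv_ne_zero hyi) (inv_ne_zero hyl))), mul_div_assoc]
  rw [AA, AA, Finset.prod_congr rfl h1, Finset.prod_mul_distrib, Finset.prod_const,
    Finset.card_erase_of_mem (mem_range.2 hi), Finset.card_range]
  have h5 : (t ^ N)⁻¹ = t⁻¹ * t⁻¹ ^ (N - 1) := by
    rw [← pow_succ', Nat.sub_add_cancel (by omega), inv_pow]
  rw [h5]
  have h6 : (1 - t⁻¹) = -(t⁻¹ * (1 - t)) := by
    rw [mul_sub, inv_mul_cancel₀ ht]; ring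
  rw [h6]; ring

theorem st_PF1 (hPF0 : ST_PF0 K) : ST_PF1 K := by
  intro q t hG μ N hN
  have ht := hG.t0
  have htN : t ^ N ≠ 0 := pow_ne_zero _ ht
  set y := yy q t μ with hy
  have hy0 : ∀ i, i < N → y i ≠ 0 := fun i _ => yy_ne hG μ i
  have hyi : ∀ i j, i < N → j < N → y i = y j → i = j := fun i j _ _ h => yy_inj hG μ h
  have hg := hPF0 t N y hy0 hyi
  set g : ℕ → K := hc (fun j => (1 - t ^ (j + 1)) * ∑ i ∈ range N, y i ^ (j + 1)) with hgdef
  have hpt : ∀ n, hc (fun j => -(pt q t μ j)) n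
      = g n - (if n = 0 then 0 else (t ^ N)⁻¹ * g (n - 1)) := by
    intro n
    rw [← hc_sub_geom]
    congr 1
    funext j
    exact pt_eq hG μ N hN j
  have hsum : ∀ n : ℕ, ∑ i ∈ range N, rho q t N μ i * y i ^ (n + 1)
      = ∑ i ∈ range N, AA t N y i * y i ^ (n + 1)
        - (t ^ N)⁻¹ * ∑ i ∈ range N, AA t N y i * y i ^ n := by
    intro n
    rw [Finset.mul_sum, ← Finset.sum_sub_distrib]
    refine Finset.sum_congr rfl fun i hi => ?_
    rw [rho_eq hG, ← hy]
    have := hy0 i (mem_range.1 hi)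
    rw [pow_succ]
    have h7 : (t ^ N)⁻¹ * (y i)⁻¹ * (y i ^ n * y i) = (t ^ N)⁻¹ * y i ^ n := by
      field_simp
    linear_combination -(AA t N y i) * h7
  refine ⟨fun n => ?_, fun i hi hr => ?_⟩
  · change _ = _ + ∑ i ∈ range N, rho q t N μ i * y i ^ n
    rw [hpt]
    rcases n with _ | _ | n
    · -- n = 0
      have h0 : g 0 = 1 := by rw [hgdef, hc_zero]
      have h1 : (1 : K) = t ^ N + ∑ i ∈ range N, AA t N y i := by
        have := hg 0
        rw [h0] at this
        simpa using this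
      have h2 : (1 - t⁻¹) * ∑ i ∈ range N, (y i)⁻¹
          = -((t ^ N)⁻¹ * ∑ i ∈ range N, AA t N y i * (y i)⁻¹) := by
        have h3 := hPF0 t⁻¹ N (fun i => (y i)⁻¹) (fun i hi => inv_ne_zero (hy0 i hi))
          (fun i j hi hj h => hyi i j hi hj (inv_injective h)) 1
        rw [hc_one] at h3
        simp only [zero_add, pow_one] at h3
        rw [h3, if_neg one_ne_zero, zero_add, Finset.mul_sum, ← Finset.sum_neg_distrib]
        refine Finset.sum_congr rfl fun i hi => ?_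
        rw [AA_inv ht N i (mem_range.1 hi) y hy0]
        ring
      have h4 : ∑ i ∈ range N, (y i)⁻¹ = t * ∑ i ∈ range N, zc q t μ i := by
        rw [Finset.mul_sum]
        refine Finset.sum_congr rfl fun i _ => ?_
        rw [hy, yy, mul_inv, inv_inv, inv_inv]
      have h5 := one_sub_Mj_Ps q t μ 0 N (fun i hi => μ.zero_of_card_le (by omega))
      simp only [zero_add, pow_one] at h5
      have h6 : ∑ i ∈ range N, rho q t N μ i * y i ^ 0
          = ∑ i ∈ range N, AA t N y i - (t ^ N)⁻¹ * ∑ i ∈ range N, AA t N y i * (y i)⁻¹ := by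
        rw [Finset.mul_sum, ← Finset.sum_sub_distrib]
        refine Finset.sum_congr rfl fun i _ => ?_
        rw [rho_eq hG, ← hy]; ring
      rw [h6, h0, if_pos rfl, if_pos rfl, if_neg (by omega), h5]
      rw [h4] at h2
      have h8 : (1 - t⁻¹) * (t * ∑ i ∈ range N, zc q t μ i)
          = (t - 1) * ∑ i ∈ range N, zc q t μ i := by
        rw [← mul_assoc, sub_mul, inv_mul_cancel₀ ht, one_mul]
      rw [h8] at h2
      linear_combination h1 + h2
    · -- n = 1
      have h6 := hsum 0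
      rw [h6, hg 1, if_neg (by omega), if_neg (by omega), if_neg (by omega), if_pos rfl]
      have := hg 0
      rw [zero_add, Nat.sub_self, this, if_pos rfl]
      have h9 : (t ^ N)⁻¹ * t ^ N = 1 := inv_mul_cancel₀ htN
      linear_combination -h9
    · have h6 := hsum (n + 1)
      rw [h6, hg (n + 2), if_neg (by omega), if_neg (by omega), if_neg (by omega),
        if_neg (by omega), show n + 1 + 1 - 1 = n + 1 from rfl, hg (n + 1), if_neg (by omega)]
      ring
  · have hr' : ¬ Rmb μ i := fun h => hr (mem_rms.2 h)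
    rw [rmb_iff] at hr'
    push Not at hr'
    obtain ⟨j, hj, hle⟩ := hr'
    have h1 := μ.anti (show i + 1 ≤ j by omega)
    have h2 := μ.anti (show i ≤ i + 1 by omega)
    have h3 : μ.1 (i + 1) = μ.1 i := by omega
    rcases Nat.lt_or_ge (i + 1) N with h4 | h4
    · rw [rho, Finset.prod_eq_zero (i := i + 1), mul_zero]
      · rw [Finset.mem_erase, mem_range]; omega
      · have h5 : zc q t μ (i + 1) = t * zc q t μ i := by
          rw [zc, zc, h3, pow_succ]; ring
        rw [h5, div_self (mul_ne_zero ht (hG.zc_ne μ i)), sub_self, zero_div]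
    · have h5 : i + 1 = N := by omega
      have h6 : μ.1 i = 0 := by
        rw [← h3]; exact μ.zero_of_card_le (by omega)
      rw [rho]
      have h7 : t / t ^ N * zc q t μ i = 1 := by
        rw [zc, h6, pow_zero, mul_one, div_mul_eq_mul_div, ← pow_succ', h5, div_self htN]
      rw [h7, sub_self, mul_zero, zero_mul]

end

end TH80
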