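import Pool.Agent.Helper86.TH.Stmts

/-! # Row RIG of the project TH -/

set_option linter.unusedSectionVars false

namespace TH80

open MvPolynomial Finset TH

noncomputable section

variable {K : Type*} [Field K] [CharZero K]

theorem repr_sum (b : Module.Basis Par K (Sy K)) (F : Sy K) :
    F = ∑ κ ∈ (b.repr F).support, b.repr F κ • b κ := by
  have h := b.linearCombination_repr F
  rw [Finsupp.linearCombination_apply, Finsupp.sum] at h
  exact h.symm

/-- `e_1 b_κ` is supported on partitions of size `card κ + 1` -/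
theorem repr_X_mul_basis {q t : K} {b : Module.Basis Par K (Sy K)} (hb : MB q t b) (κ ν : Par)
    (h : card ν ≠ card κ + 1) : b.repr (X 0 * b κ) ν = 0 := by
  obtain ⟨d, hd, _, _⟩ := hb.pieri κ
  rw [hd, map_sum, Finsupp.finsetSum_apply]
  refine Finset.sum_eq_zero fun i hi => ?_
  rw [map_smul, Finsupp.smul_apply, Module.Basis.repr_self, Finsupp.single_eq_of_ne, smul_zero]
  rintro rfl
  exact h (card_up (mem_ads.1 hi))

theorem repr_X_mul {q t : K} {b : Module.Basis Par K (Sy K)} (hb : MB q t b) (F : Sy K) (ν : Par)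
    (h : ∀ κ : Par, card κ + 1 = card ν → b.repr F κ = 0) : b.repr (X 0 * F) ν = 0 := by
  have h1 : b.repr (X 0 * F) ν
      = ∑ κ ∈ (b.repr F).support, b.repr F κ * b.repr (X 0 * b κ) ν := by
    conv_lhs => rw [repr_sum b F]
    rw [Finset.mul_sum, map_sum, Finsupp.finsetSum_apply]
    refine Finset.sum_congr rfl fun κ _ => ?_
    rw [mul_smul_comm, map_smul, Finsupp.smul_apply, smul_eq_mul]
  rw [h1]
  refine Finset.sum_eq_zero fun κ _ => ?_
  by_cases hc : card κ + 1 = card ν
  · rw [h κ hc, zero_mul]
  · rw [repr_X_mul_basis hb κ ν (fun h2 => hc h2.symm), mul_zero]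

theorem st_RIG : ST_RIG K := by
  intro q t hG b hb C hC hsup
  have hE : IsE q t b := hb.toIsE
  have key : ∀ (j : ℕ) (μ ν : Par), card ν = card μ + j → b.repr (C (b μ)) ν = 0 := by
    intro j
    induction j with
    | zero =>
      intro μ ν h
      by_contra h1
      have := hsup μ ν h1
      omega
    | succ j ih =>
      intro μ ν h
      have e1 := congrArg (fun g => b.repr (g (b μ)) ν) hC
      have e2 : b.repr ((C * (mu (X 0) + Dk q t 0) : Module.End K (Sy K)) (b μ)) ν
          = b.repr (C (X 0 * b μ)) ν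
            + (1 - Mj q t 0 * Ps q t μ 0) * b.repr (C (b μ)) ν := by
        rw [Module.End.mul_apply, LinearMap.add_apply, map_add, hE.eig, map_smul, map_add,
          map_smul, Finsupp.add_apply, Finsupp.smul_apply, smul_eq_mul, mu_apply]
      have e3 : b.repr (((mu (X 0) + Dk q t 0) * C : Module.End K (Sy K)) (b μ)) ν
          = b.repr (X 0 * C (b μ)) ν
            + (1 - Mj q t 0 * Ps q t ν 0) * b.repr (C (b μ)) ν := by
        rw [Module.End.mul_apply, LinearMap.add_apply, map_add, Finsupp.add_apply,
          Dk_zero_eq_dg hE, dg_repr, mu_apply]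
      have e4 : b.repr (C (X 0 * b μ)) ν = 0 := by
        obtain ⟨d, hd, _, _⟩ := hb.pieri μ
        rw [hd, map_sum, map_sum, Finsupp.finsetSum_apply]
        refine Finset.sum_eq_zero fun i hi => ?_
        rw [map_smul, map_smul, Finsupp.smul_apply, ih (up μ i) ν
          (by rw [card_up (mem_ads.1 hi)]; omega), smul_zero]
      have e5 : b.repr (X 0 * C (b μ)) ν = 0 := by
        refine repr_X_mul hb _ _ fun κ hκ => ih μ κ (by omega)
      have e6 : (1 - Mj q t 0 * Ps q t μ 0) * b.repr (C (b μ)) ν
          = (1 - Mj q t 0 * Ps q t ν 0) * b.repr (C (b μ)) ν := by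
        have e7 : b.repr ((C * (mu (X 0) + Dk q t 0) : Module.End K (Sy K)) (b μ)) ν
          = b.repr (((mu (X 0) + Dk q t 0) * C : Module.End K (Sy K)) (b μ)) ν := e1
        rw [e2, e3, e4, e5, zero_add, zero_add] at e7
        exact e7
      by_contra h0
      have e8 := mul_right_cancel₀ h0 e6
      have e9 : Mj q t 0 * Ps q t μ 0 = Mj q t 0 * Ps q t ν 0 := by linear_combination -e8
      have e10 := hG.inj μ ν (mul_left_cancel₀ (hG.Mj_ne 0) e9)
      subst e10
      omega
  refine b.ext fun μ => ?_
  rw [LinearMap.zero_apply]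
  apply b.repr.injective
  rw [map_zero]
  ext ν
  rw [Finsupp.zero_apply]
  by_cases h : card μ ≤ card ν
  · exact key (card ν - card μ) μ ν (by omega)
  · by_contra h1
    have := hsup μ ν h1
    omega

end

end TH80
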