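import Pool.Agent.Helper86.TH.Stmts

/-! # Row U of the project TH -/

set_option linter.unusedSectionVars false

namespace TH80

open MvPolynomial Finset TH

noncomputable section

variable {K : Type*} [Field K] [CharZero K]

/-- polynomials all of whose monomials have degree `< n` -/
def Wd (K : Type*) [Field K] (n : ℕ) : Submodule K (Sy K) :=
  Submodule.span K {F | ∃ s : ℕ →₀ ℕ, s.degree < n ∧ F = monomial s 1}

theorem Wd_mono {m n : ℕ} (h : m ≤ n) : Wd K m ≤ Wd K n := by
  refine Submodule.span_mono ?_
  rintro F ⟨s, hs, rfl⟩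
  exact ⟨s, by omega, rfl⟩

theorem Wd_X {n : ℕ} {F : Sy K} (j : ℕ) (h : F ∈ Wd K n) : X j * F ∈ Wd K (n + 1) := by
  refine Submodule.span_induction (p := fun F _ => X j * F ∈ Wd K (n + 1)) ?_ ?_ ?_ ?_ h
  · rintro G ⟨s, hs, rfl⟩
    refine Submodule.subset_span ⟨s + Finsupp.single j 1, ?_, ?_⟩
    · rw [map_add, Finsupp.degree_single]; omega
    · rw [mul_comm, MvPolynomial.X, MvPolynomial.monomial_mul, one_mul]
  · simp
  · intro a b _ _ ha hb
    rw [mul_add]; exact Submodule.add_mem _ ha hb
  · intro c a _ ha
    rw [mul_smul_comm]; exact Submodule.smul_mem _ _ ha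

theorem tau_zero' (q t : K) (F : Sy K) : tau q t 0 F = F := by
  rw [tau_apply]
  have h : (Polynomial.aeval (0 : Sy K)).toRingHom.comp (tauA q t).toRingHom
      = RingHom.id (Sy K) := by
    refine MvPolynomial.ringHom_ext ?_ ?_
    · intro c
      change Polynomial.aeval (0 : Sy K) (tauA q t (C c)) = C c
      have h1 := (tauA q t).commutes c
      rw [MvPolynomial.algebraMap_eq] at h1
      rw [h1]
      have : (algebraMap K (Polynomial (Sy K))) c = Polynomial.C (C c) := rfl
      rw [this, Polynomial.aeval_C]
      rfl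
    · intro j
      change Polynomial.aeval (0 : Sy K) (tauA q t (X j)) = X j
      rw [tauA_X]
      simp
  have h2 := congrArg (fun g => g F) h
  have h3 : Polynomial.aeval (0 : Sy K) (tauA q t F) = F := h2
  rw [Polynomial.coe_aeval_eq_eval] at h3
  rw [Polynomial.coeff_zero_eq_eval_zero]
  exact h3

theorem tau_X_mul (q t : K) (i j : ℕ) (F : Sy K) :
    tau q t i (X j * F) = X j * tau q t i F
      + (if j + 1 ≤ i then C (Mj q t j) * tau q t (i - (j + 1)) F else 0) := by
  rw [tau_apply, map_mul, tauA_X, add_mul, Polynomial.coeff_add, Polynomial.coeff_C_mul,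
    mul_assoc, Polynomial.coeff_C_mul, mul_comm (Polynomial.X ^ (j + 1)),
    Polynomial.coeff_mul_X_pow']
  split_ifs
  · rfl
  · simp; rfl

theorem monomial_add_single (s : ℕ →₀ ℕ) (j : ℕ) :
    (monomial (s + Finsupp.single j 1) (1 : K) : Sy K) = X j * monomial s 1 := by
  rw [mul_comm, MvPolynomial.X, MvPolynomial.monomial_mul, one_mul]

theorem tau_monomial (q t : K) (n : ℕ) : ∀ s : ℕ →₀ ℕ, s.degree = n → ∀ i, 0 < i →
    tau q t i (monomial s 1) ∈ Wd K n := by
  induction n with
  | zero =>
    intro s hs i hi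
    rw [Finsupp.degree_eq_zero_iff] at hs
    subst hs
    have : (monomial (0 : ℕ →₀ ℕ) (1 : K) : Sy K) = 1 := rfl
    rw [this, tau_one, if_neg (by omega)]
    exact Submodule.zero_mem _
  | succ n ih =>
    intro s hs i hi
    have hne : s ≠ 0 := by
      rintro rfl
      simp at hs
    obtain ⟨j, hj⟩ := Finsupp.ne_iff.1 hne
    rw [Finsupp.zero_apply] at hj
    obtain ⟨s', rfl⟩ : ∃ s' : ℕ →₀ ℕ, s = s' + Finsupp.single j 1 := by
      refine ⟨s - Finsupp.single j 1, ?_⟩
      ext k
      rw [Finsupp.add_apply, Finsupp.tsub_apply]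
      rcases eq_or_ne k j with rfl | hk
      · rw [Finsupp.single_eq_same]; omega
      · rw [Finsupp.single_eq_of_ne hk]; omega
    have hs' : s'.degree = n := by
      rw [map_add, Finsupp.degree_single] at hs; omega
    rw [monomial_add_single, tau_X_mul]
    refine Submodule.add_mem _ (Wd_X j (ih s' hs' i hi)) ?_
    split_ifs with hji
    · rw [← MvPolynomial.smul_eq_C_mul]
      refine Submodule.smul_mem _ _ ?_
      rcases Nat.eq_zero_or_pos (i - (j + 1)) with h0 | h0
      · rw [h0, tau_zero']
        exact Submodule.subset_span ⟨s', by omega, rfl⟩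
      · exact Wd_mono (by omega) (ih s' hs' _ h0)
    · exact Submodule.zero_mem _

theorem tau_Wd (q t : K) (n : ℕ) {F : Sy K} (h : F ∈ Wd K (n + 1)) (i : ℕ) (hi : 0 < i) :
    tau q t i F ∈ Wd K n := by
  refine Submodule.span_induction (p := fun F _ => tau q t i F ∈ Wd K n) ?_ ?_ ?_ ?_ h
  · rintro G ⟨s, hs, rfl⟩
    exact Wd_mono (by omega) (tau_monomial q t s.degree s rfl i hi)
  · rw [map_zero]; exact Submodule.zero_mem _
  · intro a b _ _ ha hb
    rw [map_add]; exact Submodule.add_mem _ ha hb
  · intro c a _ ha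
    rw [map_smul]; exact Submodule.smul_mem _ _ ha

theorem exists_Wd (F : Sy K) : ∃ n, F ∈ Wd K n := by
  have hm : ∀ (s : ℕ →₀ ℕ) (a : K), (monomial s a : Sy K) ∈ Wd K (s.degree + 1) := by
    intro s a
    have : (monomial s a : Sy K) = a • monomial s 1 := by
      rw [MvPolynomial.smul_monomial]; simp
    rw [this]
    exact Submodule.smul_mem _ _ (Submodule.subset_span ⟨s, Nat.lt_succ_self _, rfl⟩)
  induction F using MvPolynomial.induction_on' with
  | monomial s a => exact ⟨_, hm s a⟩
  | add p q hp hq =>
    obtain ⟨n, hn⟩ := hp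
    obtain ⟨m, hm⟩ := hq
    exact ⟨max n m, Submodule.add_mem _ (Wd_mono (le_max_left _ _) hn)
      (Wd_mono (le_max_right _ _) hm)⟩

theorem ep_eh (u : K) (n : ℕ) : ep u (eh K n) = if n = 0 then 1 else u ^ n - u ^ (n - 1) := by
  have h1 := hc_map (ep u : Sy K →ₐ[K] K).toRingHom (fun j => -(X j : Sy K)) n
  have h2 : ep u (eh K n) = hc (fun j => (ep u : Sy K →ₐ[K] K).toRingHom (-(X j : Sy K))) n := h1
  have h3 : (fun j => (ep u : Sy K →ₐ[K] K).toRingHom (-(X j : Sy K)))
      = fun j => -(1 ^ (j + 1)) + u ^ (j + 1) := by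
    funext j
    change ep u (-(X j : Sy K)) = _
    rw [map_neg, ep, ev, aeval_X]
    ring
  rw [h2, h3, hc_add_range]
  cases n with
  | zero => simp
  | succ n =>
    rw [if_neg (by omega), Finset.sum_range_succ', Finset.sum_range_succ']
    have h4 : ∑ k ∈ range n, hc (fun j => -((1 : K) ^ (j + 1))) (k + 1 + 1)
        * hc (fun j => u ^ (j + 1)) (n + 1 - (k + 1 + 1)) = 0 := by
      refine Finset.sum_eq_zero fun k _ => ?_
      rw [hc_neg_geom_two, zero_mul]
    rw [h4]
    simp only [zero_add, hc_neg_geom_one, hc_zero, hc_geom, Nat.sub_zero, Nat.add_sub_cancel]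
    ring

theorem st_U (hDX : ST_DX K) : ST_U K := by
  intro q t hM u f h1 h2
  set M := Mj q t 0 with hMdef
  have hDX' : ∀ (k : ℤ) (F : Sy K), Dk q t k (X 0 * F) = X 0 * Dk q t k F + M • Dk q t (k + 1) F := by
    intro k F
    have := congrArg (fun g => g F) (hDX q t k)
    exact this
  -- step (b)
  have hb : ∀ (b : ℕ) (F : Sy K),
      f (Dk q t ((b : ℤ) + 1 + 1) F) = u * f (Dk q t ((b : ℤ) + 1) F) := by
    intro b
    induction b with
    | zero =>
      intro F
      have e1 := congrArg f (hDX' 1 F)
      have e0 := congrArg f (hDX' 0 F)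
      rw [map_add, map_smul, h1, smul_eq_mul] at e1 e0
      have e2 := h2 (X 0 * F)
      rw [h1] at e2
      have e3 := h2 F
      have e4 : M * f (Dk q t (1 + 1) F) = M * (u * f (Dk q t (0 + 1) F)) := by
        rw [e1, e0, e3] at e2
        linear_combination e2
      have e5 := mul_left_cancel₀ hM e4
      simpa using e5
    | succ b ih =>
      intro F
      have e1 := congrArg f (hDX' ((b : ℤ) + 1 + 1) F)
      have e0 := congrArg f (hDX' ((b : ℤ) + 1) F)
      rw [map_add, map_smul, h1, smul_eq_mul] at e1 e0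
      have e2 := ih (X 0 * F)
      have e3 := ih F
      have e4 : M * f (Dk q t ((b : ℤ) + 1 + 1 + 1) F)
          = M * (u * f (Dk q t ((b : ℤ) + 1 + 1) F)) := by
        rw [e1, e0] at e2
        linear_combination e2 - (1 - u) * e3
      have e5 := mul_left_cancel₀ hM e4
      push_cast
      exact e5
  -- step 2
  have hstep : ∀ (n : ℕ) (G : Sy K), G ∈ Wd K n → ∀ b : ℕ,
      f (eh K (b + 2) * G) = u * f (eh K (b + 1) * G) := by
    intro n
    induction n with
    | zero =>
      intro G hG b
      have : G = 0 := by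
        have h0 : Wd K 0 = ⊥ := by
          rw [Wd, Submodule.span_eq_bot]
          rintro x ⟨s, hs, _⟩
          omega
        rw [h0] at hG
        exact (Submodule.mem_bot K).1 hG
      subst this
      simp
    | succ n ih =>
      intro G hG b
      have hN : (tauA q t G).natDegree < (tauA q t G).natDegree + 1 := Nat.lt_succ_self _
      have e2 := hb b G
      rw [Dk_apply q t _ G _ hN, Dk_apply q t _ G _ hN, map_sum, map_sum, Finset.sum_range_succ',
        Finset.sum_range_succ', mul_add, Finset.mul_sum] at e2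
      have e3 : ∀ i : ℕ, ehz K ((b : ℤ) + 1 + 1 + (i : ℕ)) = eh K (b + i + 2) := by
        intro i
        rw [← ehz_natCast]; congr 1; push_cast; ring
      have e4 : ∀ i : ℕ, ehz K ((b : ℤ) + 1 + (i : ℕ)) = eh K (b + i + 1) := by
        intro i
        rw [← ehz_natCast]; congr 1; push_cast; ring
      simp only [e3, e4] at e2
      rw [Finset.sum_congr rfl (fun k _ => ih (tau q t (k + 1) G)
        (tau_Wd q t n hG (k + 1) (by omega)) (b + (k + 1)))] at e2
      have e5 := add_left_cancel e2
      simpa [tau_zero'] using e5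
  have hall' : ∀ (b : ℕ) (G : Sy K), f (eh K b * G) = ep u (eh K b) * f G := by
    intro b
    cases b with
    | zero => intro G; simp [eh_zero]
    | succ b =>
      induction b with
      | zero =>
        intro G
        rw [ep_eh, if_neg (by omega), zero_add, eh_one, neg_mul, map_neg, h1]
        simp only [zero_add, pow_one, Nat.sub_self, pow_zero]
        ring
      | succ b ih =>
        intro G
        obtain ⟨n, hn⟩ := exists_Wd G
        rw [show b + 1 + 1 = b + 2 from rfl, hstep n G hn b, ih G, ep_eh, ep_eh,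
          if_neg (by omega), if_neg (by omega)]
        simp only [show b + 2 - 1 = b + 1 from rfl, Nat.add_sub_cancel]
        ring
  have hX : ∀ (j : ℕ) (G : Sy K), f (X j * G) = ep u (X j) * f G := by
    intro j
    induction j using Nat.strong_induction_on with
    | _ j ih =>
      intro G
      have e1 := hc_rec_mul (fun j => -(X j : Sy K)) j
      rw [Finset.sum_range_succ, Nat.sub_self, hc_zero, mul_one] at e1
      change ((j : Sy K) + 1) * eh K (j + 1)
        = ∑ i ∈ range j, -(X i : Sy K) * eh K (j - i) + -(X j) at e1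
      have e2 : (X j : Sy K) = -(((j : Sy K) + 1) * eh K (j + 1))
          - ∑ i ∈ range j, (X i : Sy K) * eh K (j - i) := by
        rw [e1]
        simp only [neg_mul, Finset.sum_neg_distrib]
        ring
      have e3 : ∀ c : K, ∀ G : Sy K, f (C c * G) = c * f G := by
        intro c G
        rw [← MvPolynomial.smul_eq_C_mul, map_smul, smul_eq_mul]
      have e4 : ((j : Sy K) + 1) = C ((j : K) + 1) := by simp
      have e5 : ep u (X j) = -(((j : K) + 1) * ep u (eh K (j + 1)))
          - ∑ i ∈ range j, ep u (X i) * ep u (eh K (j - i)) := by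
        have h := congrArg (ep u) e2
        rw [map_sub, map_neg, map_mul, map_sum, e4] at h
        rw [h]
        simp [ep, ev]
      rw [e5]
      rw [e2, sub_mul, map_sub, neg_mul, map_neg, mul_assoc, e4, e3, hall', Finset.sum_mul,
        map_sum, sub_mul, Finset.sum_mul]
      congr 1
      · ring
      · refine Finset.sum_congr rfl fun i hi => ?_
        rw [mem_range] at hi
        rw [mul_assoc, ih i hi, hall']
        ring
  have hmul : ∀ F G : Sy K, f (F * G) = ep u F * f G := by
    intro F
    induction F using MvPolynomial.induction_on with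
    | C c =>
      intro G
      rw [← MvPolynomial.smul_eq_C_mul, map_smul, smul_eq_mul]
      congr 1
      simp [ep, ev]
    | add a b ha hb =>
      intro G
      rw [add_mul, map_add, ha, hb, map_add]; ring
    | mul_X a j ha =>
      intro G
      rw [mul_assoc, ha, hX, map_mul]; ring
  intro F
  have := hmul F 1
  rw [mul_one] at this
  rw [this]; ring

end

end TH80
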